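import Pool.Agent.Q157.DC.Stm

/-! Job DC-att of project DC (helper157): the probability that all the attempts fail. -/

set_option autoImplicit false

open Finset Filter Topology
open scoped symmDiff

namespace Pool.Agent.Q225.DC.A

open Pool.Agent.Q157.DC

theorem rt_bd {pv pe : ℝ} (h1 : 0 < pv) (h2 : pv ≤ 1) (h3 : 0 < pe) (h4 : pe ≤ 1) (n : ℕ) :
    ∀ i, 0 ≤ rt pv pe n i ∧ rt pv pe n i ≤ 1 := by
  rintro (i | i)
  · exact ⟨h1.le, h2⟩
  · exact ⟨h3.le, h4⟩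

theorem reg_mono {n : ℕ} {U V : Set (Vx n)} (h : U ⊆ V) : reg U ⊆ reg V := by
  rintro i (⟨v, hv, rfl⟩ | ⟨a, ha, b, hb, rfl⟩)
  · exact Or.inl ⟨v, h hv, rfl⟩
  · exact Or.inr ⟨a, h ha, b, h hb, rfl⟩

theorem reg_disj {n : ℕ} {U V : Set (Vx n)} (h : Disjoint U V) : Disjoint (reg U) (reg V) := by
  rw [Set.disjoint_left] at h ⊢
  rintro i (⟨v, hv, rfl⟩ | ⟨a, ha, b, hb, rfl⟩) (⟨v', hv', e⟩ | ⟨a', ha', b', hb', e⟩)
  · have : v = v' := Sum.inl_injective e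
    exact h hv (this ▸ hv')
  · exact absurd e (by simp)
  · exact absurd e (by simp)
  · have e1 : s(a, b) = s(a', b') := Sum.inr_injective e
    rcases Sym2.eq_iff.1 e1 with ⟨e2, -⟩ | ⟨e2, -⟩
    · exact h ha (e2 ▸ ha')
    · exact h ha (e2 ▸ hb')

theorem dep_mono {ι β : Type} {S T : Set ι} {f : (ι → Bool) → β} (h : S ⊆ T) (hf : DepOn S f) :
    DepOn T f := fun ω ω' hω => hf ω ω' fun i hi => hω i (h hi)

theorem iv_right {n : ℕ} (u w : Vx n) : w ∈ Iv u w := fun _ h => h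

theorem iv_left {n : ℕ} (u w : Vx n) : u ∈ Iv u w := by
  show u ∆ u ⊆ u ∆ w
  simp

theorem pres_dep {n : ℕ} {U : Set (Vx n)} {v : Vx n} (hv : v ∈ U) :
    DepOn (reg U) (fun ω => pres ω v) := by
  intro ω ω' h
  have := h (Sum.inl v) (Or.inl ⟨v, hv, rfl⟩)
  simp only [pres, this]

theorem two_pres (h3 : S_cyl) (pv pe : ℝ) (n : ℕ) {a b : Vx n} (hab : a ≠ b) :
    Pr (rt pv pe n) (fun ω => pres ω a ∧ pres ω b) = pv ^ 2 := by
  classical
  have h := h3 (rt pv pe n) ({Sum.inl a, Sum.inl b} : Finset (Ix n))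
  rw [Finset.prod_pair (fun h => hab (Sum.inl_injective h))] at h
  have e : (fun ω : Om n => ∀ i ∈ ({Sum.inl a, Sum.inl b} : Finset (Ix n)), ω i = true) =
      fun ω => pres ω a ∧ pres ω b := by
    funext ω
    simp [pres]
  rw [e] at h
  rw [h]
  show pv * pv = pv ^ 2
  ring

theorem one_att (h1 : S_basic) (h2 : S_pr_forall) (h3 : S_cyl) {pv pe : ℝ} (hpv : 0 < pv)
    (hpv1 : pv ≤ 1) (hpe : 0 < pe) (hpe1 : pe ≤ 1) (n J : ℕ) (ε : ℝ) (u w : Vx n)
    (v z : Fin J → Vx n) (hv : Function.Injective v) (hz : Function.Injective z)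
    (hvz : ∀ j j', v j ≠ z j')
    (hg : ∀ j, Pr (rt pv pe n) (fun ω => ¬ Geo ω u (v j)) ≤ ε ∧
      Pr (rt pv pe n) (fun ω => ¬ Geo ω (v j) (z j)) ≤ ε ∧
      Pr (rt pv pe n) (fun ω => ¬ Geo ω (z j) w) ≤ ε) :
    Pr (rt pv pe n) (fun ω => ∀ j, ¬ Try ω u (v j) (z j) w) ≤ (1 - pv ^ 2) ^ J + 3 * J * ε := by
  classical
  obtain ⟨-, -, -, hmono, hcompl, hor, hun, -⟩ := h1 (rt pv pe n) (rt_bd hpv hpv1 hpe hpe1 n)
  have e1 : Pr (rt pv pe n) (fun ω => ∀ j ∈ (univ : Finset (Fin J)),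
      ¬ (pres ω (v j) ∧ pres ω (z j))) = (1 - pv ^ 2) ^ J := by
    rw [h2 (rt pv pe n) (univ : Finset (Fin J)) (fun j => {Sum.inl (v j), Sum.inl (z j)})
      (fun j ω => ¬ (pres ω (v j) ∧ pres ω (z j)))]
    · rw [Finset.prod_congr rfl fun j _ => ?_, Finset.prod_const, Finset.card_univ,
        Fintype.card_fin]
      rw [hcompl, two_pres h3 pv pe n (hvz j j)]
    · intro j _ j' _ hjj
      rw [Set.disjoint_left]
      rintro i (rfl | rfl) (h | h)
      · exact hjj (hv (Sum.inl_injective h))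
      · exact hvz j j' (Sum.inl_injective h)
      · exact hvz j' j (Sum.inl_injective h).symm
      · exact hjj (hz (Sum.inl_injective h))
    · intro j _ ω ω' h
      have g1 := h (Sum.inl (v j)) (Or.inl rfl)
      have g2 := h (Sum.inl (z j)) (Or.inr rfl)
      simp only [pres, g1, g2]
  have e2 : Pr (rt pv pe n) (fun ω => ∃ j ∈ (univ : Finset (Fin J)),
      (¬ Geo ω u (v j) ∨ ¬ Geo ω (v j) (z j)) ∨ ¬ Geo ω (z j) w) ≤ 3 * J * ε := by
    refine (hun univ (fun j ω => (¬ Geo ω u (v j) ∨ ¬ Geo ω (v j) (z j)) ∨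
      ¬ Geo ω (z j) w)).trans ?_
    have : ∀ j ∈ (univ : Finset (Fin J)), Pr (rt pv pe n) (fun ω =>
        (¬ Geo ω u (v j) ∨ ¬ Geo ω (v j) (z j)) ∨ ¬ Geo ω (z j) w) ≤ 3 * ε := by
      intro j _
      obtain ⟨g1, g2, g3⟩ := hg j
      have k1 := hor (fun ω => ¬ Geo ω u (v j) ∨ ¬ Geo ω (v j) (z j)) (fun ω => ¬ Geo ω (z j) w)
      have k2 := hor (fun ω => ¬ Geo ω u (v j)) (fun ω => ¬ Geo ω (v j) (z j))
      linarith
    refine (Finset.sum_le_sum this).trans (le_of_eq ?_)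
    rw [Finset.sum_const, Finset.card_univ, Fintype.card_fin, nsmul_eq_mul]
    ring
  refine (hmono _ _ ?_).trans ((hor _ _).trans (add_le_add e1.le e2))
  intro ω hω
  by_cases h : ∀ j ∈ (univ : Finset (Fin J)), ¬ (pres ω (v j) ∧ pres ω (z j))
  · exact Or.inl h
  · right
    push Not at h
    obtain ⟨j, -, hj⟩ := h
    refine ⟨j, Finset.mem_univ j, ?_⟩
    have := hω j
    unfold Try at this
    tauto

theorem att (h1 : S_basic) (h2 : S_pr_forall) (h3 : S_cyl) (h4 : S_geo_dep) : S_att := by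
  classical
  intro pv pe hpv hpv1 hpe hpe1 n M J ε u w v z U hε hU hIv hv hz hvz hg
  obtain ⟨-, -, hbd, hmono, -, -, -, -⟩ := h1 (rt pv pe n) (rt_bd hpv hpv1 hpe hpe1 n)
  have hd : ∀ t, DepOn (reg (U t)) (fun ω => ∀ j, ¬ Try ω (u t) (v t j) (z t j) (w t)) := by
    intro t ω ω' h
    refine propext (forall_congr' fun j => not_congr ?_)
    obtain ⟨i1, i2, i3⟩ := hIv t j
    have g1 := dep_mono (reg_mono i1) (h4 n (u t) (v t j)) ω ω' h
    have g2 := dep_mono (reg_mono i2) (h4 n (v t j) (z t j)) ω ω' h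
    have g3 := dep_mono (reg_mono i3) (h4 n (z t j) (w t)) ω ω' h
    have g4 := pres_dep (i1 (iv_right (u t) (v t j))) ω ω' h
    have g5 := pres_dep (i2 (iv_right (v t j) (z t j))) ω ω' h
    simp only at g1 g2 g3 g4 g5
    unfold Try
    rw [g1, g2, g3, g4, g5]
  have e := h2 (rt pv pe n) (univ : Finset (Fin M)) (fun t => reg (U t))
    (fun t ω => ∀ j, ¬ Try ω (u t) (v t j) (z t j) (w t))
    (fun t _ t' _ htt => reg_disj (hU t t' htt)) (fun t _ => hd t)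
  have e' : (fun ω : Om n => ∀ t ∈ (univ : Finset (Fin M)), ∀ j,
      ¬ Try ω (u t) (v t j) (z t j) (w t)) = fun ω => ∀ t j,
      ¬ Try ω (u t) (v t j) (z t j) (w t) := by
    funext ω
    simp
  rw [e'] at e
  rw [e]
  calc ∏ t ∈ (univ : Finset (Fin M)), Pr (rt pv pe n)
        (fun ω => ∀ j, ¬ Try ω (u t) (v t j) (z t j) (w t)) ≤
      ∏ t ∈ (univ : Finset (Fin M)), ((1 - pv ^ 2) ^ J + 3 * J * ε) := by
        refine Finset.prod_le_prod (fun t _ => (hbd _).1) fun t _ => ?_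
        exact one_att h1 h2 h3 hpv hpv1 hpe hpe1 n J ε (u t) (w t) (v t) (z t) (hv t) (hz t)
          (hvz t) (hg t)
    _ = ((1 - pv ^ 2) ^ J + 3 * J * ε) ^ M := by
        rw [Finset.prod_const, Finset.card_univ, Fintype.card_fin]

end Pool.Agent.Q225.DC.A
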