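import Pool.Agent.Q157.DC.Stm

/-! Job DC-cheb of project DC (helper157). -/

set_option autoImplicit false

open Finset Filter Topology

namespace Pool.Agent.Q225.DC

open Pool.Agent.Q157.DC

theorem pr_eq {ι : Type} [Fintype ι] [DecidableEq ι] (r : ι → ℝ) (B : (ι → Bool) → Prop)
    {iB : ∀ ω, Decidable (B ω)} : Pr r B = Ex r (fun ω => if B ω then 1 else 0) := by
  unfold Pr Ex
  refine Finset.sum_congr rfl fun ω _ => ?_
  beta_reduce
  by_cases hB : B ω
  · rw [if_pos hB, if_pos hB, mul_one]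
  · rw [if_neg hB, if_neg hB, mul_zero]

theorem ex_sum {ι : Type} [Fintype ι] [DecidableEq ι] (r : ι → ℝ) {τ : Type} (F : Finset τ)
    (g : τ → (ι → Bool) → ℝ) : Ex r (fun ω => ∑ t ∈ F, g t ω) = ∑ t ∈ F, Ex r (g t) := by
  unfold Ex
  rw [Finset.sum_comm]
  refine Finset.sum_congr rfl fun ω _ => ?_
  rw [Finset.mul_sum]

theorem cheb (h : S_basic) : S_cheb := by
  classical
  intro ι _ _ r hr τ F A hμ
  obtain ⟨hw0, hw1, -, -, -, -, -, hmk⟩ := h r hr
  set μ : ℝ := ∑ t ∈ F, Pr r (A t) with hμdef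
  set N : (ι → Bool) → ℝ := fun ω => ∑ t ∈ F, if A t ω then 1 else 0 with hN
  have e1 : Ex r N = μ := by
    rw [hN, ex_sum, hμdef]
    exact Finset.sum_congr rfl fun t _ => (pr_eq r (A t)).symm
  have e2 : Ex r (fun ω => N ω ^ 2) = ∑ t ∈ F, ∑ t' ∈ F, Pr r (fun ω => A t ω ∧ A t' ω) := by
    have : (fun ω => N ω ^ 2) = fun ω => ∑ t ∈ F, ∑ t' ∈ F,
        (if A t ω ∧ A t' ω then (1 : ℝ) else 0) := by
      funext ω
      rw [hN, sq, Finset.sum_mul_sum]
      refine Finset.sum_congr rfl fun t _ => Finset.sum_congr rfl fun t' _ => ?_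
      by_cases h1 : A t ω <;> by_cases h2 : A t' ω <;> simp [h1, h2]
    rw [this, ex_sum]
    refine Finset.sum_congr rfl fun t _ => ?_
    rw [ex_sum]
    exact Finset.sum_congr rfl fun t' _ => (pr_eq r _).symm
  have hμ0 : μ ≠ 0 := hμ.ne'
  have h3 := hmk (fun ω => ∀ t ∈ F, ¬ A t ω) (fun ω => (N ω / μ - 1) ^ 2)
    (fun ω => sq_nonneg _) (fun ω hω => by
      have : N ω = 0 := by
        rw [hN]
        exact Finset.sum_eq_zero fun t ht => if_neg (hω t ht)
      simp only [this]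
      norm_num)
  refine h3.trans (le_of_eq ?_)
  have e3 : Ex r (fun ω => (N ω / μ - 1) ^ 2) =
      Ex r (fun ω => N ω ^ 2) / μ ^ 2 - 2 * (Ex r N) / μ + ∑ ω, wt r ω := by
    unfold Ex
    rw [Finset.sum_div, Finset.mul_sum, Finset.sum_div, ← Finset.sum_sub_distrib,
      ← Finset.sum_add_distrib]
    refine Finset.sum_congr rfl fun ω _ => ?_
    field_simp
    ring
  rw [e3, e1, e2, hw1]
  field_simp
  ring

end Pool.Agent.Q225.DC
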