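import Pool.Agent.Q157.DC.Stm

/-! Job DC-disj of project DC (helper157): the regions of the attempts. -/

set_option autoImplicit false

open Finset Filter Topology
open scoped symmDiff

namespace Pool.Agent.Q225.DC

open Pool.Agent.Q157.DC

theorem msd {n : ℕ} (s t : Vx n) (c : Fin n) : c ∈ s ∆ t ↔ ¬ (c ∈ s ↔ c ∈ t) := by
  rw [Finset.mem_symmDiff]
  tauto

theorem eq_on {n : ℕ} {s u I : Vx n} (h : (s ∆ u) ∩ I = ∅) {c : Fin n} (hc : c ∈ I) :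
    c ∈ s ↔ c ∈ u := by
  by_contra h1
  have : c ∈ (s ∆ u) ∩ I := Finset.mem_inter.2 ⟨(msd s u c).2 h1, hc⟩
  rw [h] at this
  exact absurd this (Finset.notMem_empty c)

theorem sub_on {n : ℕ} {s u w I : Vx n} (h : (s ∆ u) ∩ I ⊆ u ∆ w) {c : Fin n} (hc : c ∈ I) :
    (c ∈ s ↔ c ∈ u) ∨ ¬ (c ∈ u ↔ c ∈ w) := by
  by_contra h1
  push Not at h1
  obtain ⟨h2, h3⟩ := h1
  have : c ∈ (s ∆ u) ∩ I := Finset.mem_inter.2 ⟨(msd s u c).2 (by tauto), hc⟩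
  have h4 := (msd u w c).1 (h this)
  exact h4 h3

theorem msg {n : ℕ} (x : Vx n) (a c : Fin n) : c ∈ x ∆ {a} ↔ ¬ (c ∈ x ↔ c = a) := by
  rw [msd, Finset.mem_singleton]

theorem mixed {n : ℕ} {x y I I' : Vx n} (hI : Disjoint I I')
    (hxy : I' ⊆ x ∆ y ∨ Disjoint I' (x ∆ y)) {a a₂ b b₂ : Fin n} (ha : a ∈ I) (ha₂ : a₂ ∈ I)
    (hb : b ∈ I') (hb₂ : b₂ ∈ I') (hbb : b ≠ b₂) {s : Vx n}
    (h1 : (s ∆ (x ∆ {a})) ∩ I' ⊆ (x ∆ {a}) ∆ (y ∆ {b}))
    (h2 : (s ∆ (y ∆ {b₂})) ∩ I' = ∅) : False := by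
  have hba : b ≠ a := fun h => Finset.disjoint_left.1 hI ha (h ▸ hb)
  have hb₂a : b₂ ≠ a := fun h => Finset.disjoint_left.1 hI ha (h ▸ hb₂)
  have e1 := eq_on h2 hb
  have e2 := eq_on h2 hb₂
  have e3 := sub_on h1 hb
  have e4 := sub_on h1 hb₂
  have hb₂b : b₂ ≠ b := fun h => hbb h.symm
  simp only [msg, hba, hb₂a, hbb, hb₂b, iff_false, not_not, iff_true] at e1 e2 e3 e4
  have k1 : b ∉ x ∆ y := by
    rw [msd]
    by_cases c1 : b ∈ s <;> by_cases c2 : b ∈ x <;> by_cases c3 : b ∈ y <;> simp_all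
  have k2 : b₂ ∈ x ∆ y := by
    rw [msd]
    by_cases c1 : b₂ ∈ s <;> by_cases c2 : b₂ ∈ x <;> by_cases c3 : b₂ ∈ y <;> simp_all
  rcases hxy with h | h
  · exact k1 (h hb)
  · exact Finset.disjoint_left.1 h hb₂ k2

theorem disj : S_disj := by
  intro n x y I I' hI hxy a ha a₂ ha₂ b hb b₂ hb₂ haa hbb
  rw [Set.disjoint_left]
  rintro s (⟨h1, h2⟩ | ⟨h1, h2⟩) (⟨h3, h4⟩ | ⟨h3, h4⟩)
  · have e1 := eq_on h1 ha
    have e2 := eq_on h3 ha
    simp only [msg] at e1 e2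
    tauto
  · exact mixed hI hxy ha ha₂ hb hb₂ hbb h2 h3
  · exact mixed hI hxy ha₂ ha hb₂ hb hbb.symm h4 h1
  · have e1 := eq_on h1 hb
    have e2 := eq_on h3 hb
    simp only [msg] at e1 e2
    tauto

theorem bn_I {n : ℕ} {I I' : Vx n} (hI : Disjoint I I') (u w α : Vx n) {c : Fin n} (hc : c ∈ I) :
    c ∈ bn I I' u w α ↔ c ∈ u := by
  have h1 : c ∉ I' := Finset.disjoint_left.1 hI hc
  unfold bn
  simp only [Finset.mem_union, Finset.mem_inter, Finset.mem_sdiff]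
  tauto

theorem bn_I' {n : ℕ} {I I' : Vx n} (hI : Disjoint I I') (u w α : Vx n) {c : Fin n}
    (hc : c ∈ I') : c ∈ bn I I' u w α ↔ c ∈ w := by
  have h1 : c ∉ I := Finset.disjoint_right.1 hI hc
  unfold bn
  simp only [Finset.mem_union, Finset.mem_inter, Finset.mem_sdiff]
  tauto

theorem iv_pt {n : ℕ} {u v s : Vx n} (h : s ∈ Iv u v) (c : Fin n) :
    (c ∈ u ↔ c ∈ v) → (c ∈ u ↔ c ∈ s) := by
  intro h1
  by_contra h2
  have h3 : c ∈ u ∆ s := (msd u s c).2 h2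
  exact (msd u v c).1 (h h3) h1

theorem iv : S_iv := by
  intro n I I' u w α β hI
  refine ⟨fun s hs => Or.inl ⟨?_, ?_⟩, fun s hs => Or.inl ⟨?_, ?_⟩, fun s hs => Or.inr ⟨?_, ?_⟩⟩
  · rw [Finset.eq_empty_iff_forall_notMem]
    intro c hc
    obtain ⟨h1, h2⟩ := Finset.mem_inter.1 hc
    have h3 := bn_I hI u w α h2
    have h4 := iv_pt hs c
    rw [msd] at h1
    tauto
  · intro c hc
    obtain ⟨h1, h2⟩ := Finset.mem_inter.1 hc
    have h3 := bn_I' hI u w α h2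
    have h4 := iv_pt hs c
    rw [msd] at h1 ⊢
    tauto
  · rw [Finset.eq_empty_iff_forall_notMem]
    intro c hc
    obtain ⟨h1, h2⟩ := Finset.mem_inter.1 hc
    have h3 := bn_I hI u w α h2
    have h3' := bn_I hI u w β h2
    have h4 := iv_pt hs c
    rw [msd] at h1
    tauto
  · intro c hc
    obtain ⟨h1, h2⟩ := Finset.mem_inter.1 hc
    have h3 := bn_I' hI u w α h2
    have h3' := bn_I' hI u w β h2
    have h4 := iv_pt hs c
    rw [msd] at h1 ⊢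
    tauto
  · rw [Finset.eq_empty_iff_forall_notMem]
    intro c hc
    obtain ⟨h1, h2⟩ := Finset.mem_inter.1 hc
    have h3 := bn_I' hI u w β h2
    have h4 := iv_pt hs c
    rw [msd] at h1
    tauto
  · intro c hc
    obtain ⟨h1, h2⟩ := Finset.mem_inter.1 hc
    have h3 := bn_I hI u w β h2
    have h4 := iv_pt hs c
    rw [msd] at h1 ⊢
    tauto

end Pool.Agent.Q225.DC
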