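import Pool.Agent.Q157.DC.Stm

/-! Job DC-eaexists of project DC (helper157): second moment for the pendant paths. -/

set_option autoImplicit false

open Finset Filter Topology
open scoped symmDiff

namespace Pool.Agent.Q225.DC.X

open Pool.Agent.Q157.DC

theorem rt_bd {pv pe : ℝ} (h1 : 0 < pv) (h2 : pv ≤ 1) (h3 : 0 < pe) (h4 : pe ≤ 1) (n : ℕ) :
    ∀ i, 0 ≤ rt pv pe n i ∧ rt pv pe n i ≤ 1 := by
  rintro (i | i)
  · exact ⟨h1.le, h2⟩
  · exact ⟨h3.le, h4⟩

/-- the number of elements of a class near a given one -/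
theorem near_count (h3 : S_nearCard) (n m : ℕ) (x : Vx n) :
    open Classical in
    (univ.filter (fun α' : Vx n × (Fin m ↪ Fin n) => near (2 * m + 2) x α'.1)).card ≤
      2 * (n + 1) ^ (2 * m + 2) * n ^ m := by
  classical
  have e : univ.filter (fun α' : Vx n × (Fin m ↪ Fin n) => near (2 * m + 2) x α'.1) =
      (univ.filter (fun s : Vx n => near (2 * m + 2) x s)) ×ˢ (univ : Finset (Fin m ↪ Fin n)) := by
    ext α
    simp
  rw [e, Finset.card_product, Finset.card_univ, Fintype.card_embedding_eq, Fintype.card_fin,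
    Fintype.card_fin]
  refine Nat.mul_le_mul ?_ (Nat.descFactorial_le_pow n m)
  convert h3 n (2 * m + 2) x

theorem card_all (n m : ℕ) : (univ : Finset (Vx n × (Fin m ↪ Fin n))).card =
    2 ^ n * n.descFactorial m := by
  rw [Finset.card_univ, Fintype.card_prod, Fintype.card_finset, Fintype.card_fin,
    Fintype.card_embedding_eq, Fintype.card_fin, Fintype.card_fin]

theorem ea_exists (h1 : S_basic) (h2 : S_cheb) (h3 : S_nearCard) (h4 : S_EA_low) (h5 : S_EA_far)
    (h6 : S_EA_near) : S_EA_exists := by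
  classical
  intro pv pe δ ρ C m hpv hpv1 hpe hpe1 hδ hρ hC hm hhalf hρ2 hPB
  obtain ⟨n₀, hn₀⟩ := h6 pv pe δ ρ C m hpv hpv1 hpe hpe1 hδ hρ hC hm hPB
  set c : ℝ := pv ^ (m + 2) * pe ^ m with hc
  have hc0 : 0 < c := by positivity
  set q : ℝ := 2 * ρ ^ (m + 1) with hq
  have hq0 : 0 ≤ q := by positivity
  have hp0 : 0 ≤ 1 - pv * pe := by nlinarith
  obtain ⟨n₁, hn₁⟩ := exists_nat_gt (1 / c)
  -- the bound
  have key : ∀ᶠ n : ℕ in atTop,
      Pr (rt pv pe n) (fun ω => ∀ α : Vx n × (Fin m ↪ Fin n), ¬ EA ω α) ≤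
        1 / (c * ((n : ℝ) + 1 - m)) + (2 * C * 2 ^ (2 * m + 2)) * ((n : ℝ) ^ (4 * m + 2) * q ^ n) := by
    filter_upwards [eventually_ge_atTop (n₀ + n₁ + m + 2)] with n hn
    have hb := h1 (rt pv pe n) (rt_bd hpv hpv1 hpe hpe1 n)
    obtain ⟨-, -, hbd, hmono, -, -, -, -⟩ := hb
    set P : Vx n × (Fin m ↪ Fin n) → ℝ := fun α => Pr (rt pv pe n) (fun ω => EA ω α) with hP
    have hP0 : ∀ α, 0 ≤ P α := fun α => (hbd _).1
    set μ : ℝ := ∑ α, P α with hμ
    have hmn : m ≤ n := by omega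
    have hnm : (0 : ℝ) < (n : ℝ) + 1 - m := by
      have : (m : ℝ) ≤ n := by exact_mod_cast hmn
      linarith
    -- lower bound of the mean
    have hlow : c * ((n : ℝ) + 1 - m) ≤ μ := by
      have e1 : ∀ α ∈ (univ : Finset (Vx n × (Fin m ↪ Fin n))), c * (1 / 2) ^ n ≤ P α := by
        intro α _
        refine le_trans ?_ (h4 pv pe hpv hpv1 hpe hpe1 n m (by omega) α)
        rw [← hc]
        refine mul_le_mul_of_nonneg_left ?_ hc0.le
        rw [pow_mul]
        exact pow_le_pow_left₀ (by norm_num) hhalf n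
      have e2 := Finset.card_nsmul_le_sum _ _ _ e1
      rw [card_all, nsmul_eq_mul] at e2
      refine le_trans ?_ e2
      push_cast
      have e3 : (2 : ℝ) ^ n * (n.descFactorial m : ℝ) * (c * (1 / 2) ^ n) =
          c * (n.descFactorial m : ℝ) := by
        have : (2 : ℝ) ^ n * (1 / 2) ^ n = 1 := by rw [← mul_pow]; norm_num
        calc _ = c * (n.descFactorial m : ℝ) * ((2 : ℝ) ^ n * (1 / 2) ^ n) := by ring
          _ = _ := by rw [this, mul_one]
      rw [e3]
      refine mul_le_mul_of_nonneg_left ?_ hc0.le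
      have e4 : n + 1 - m ≤ n.descFactorial m := by
        refine le_trans ?_ (Nat.pow_sub_le_descFactorial n m)
        exact Nat.le_self_pow (by omega) _
      have e5 : ((n + 1 - m : ℕ) : ℝ) = (n : ℝ) + 1 - m := by
        rw [Nat.cast_sub (by omega)]
        push_cast
        ring
      rw [← e5]
      exact_mod_cast e4
    have hμ1 : 1 ≤ μ := by
      refine le_trans ?_ hlow
      have e1 : (n₁ : ℝ) ≤ (n : ℝ) + 1 - m := by
        have : ((n₁ + m : ℕ) : ℝ) ≤ n := by exact_mod_cast (by omega : n₁ + m ≤ n)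
        push_cast at this
        linarith
      have e2 : 1 / c ≤ (n : ℝ) + 1 - m := hn₁.le.trans e1
      rw [div_le_iff₀ hc0] at e2
      linarith
    have hμ0 : 0 < μ := by linarith
    -- the double sum
    set B : ℝ := C * ρ ^ ((m + 1) * n) with hB
    have hB0 : 0 ≤ B := by positivity
    have hpair : ∀ α α' : Vx n × (Fin m ↪ Fin n),
        Pr (rt pv pe n) (fun ω => EA ω α ∧ EA ω α') ≤
          P α * P α' + (if α = α' then P α else 0) +
            (if near (2 * m + 2) α.1 α'.1 then B else 0) := by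
      intro α α'
      by_cases h : α = α'
      · subst h
        rw [if_pos rfl]
        have g1 : Pr (rt pv pe n) (fun ω => EA ω α ∧ EA ω α) ≤ P α :=
          hmono _ _ fun ω h => h.1
        have g2 : 0 ≤ (if near (2 * m + 2) α.1 α.1 then B else 0) := by split_ifs <;> simp [hB0]
        have g3 := mul_nonneg (hP0 α) (hP0 α)
        linarith
      · rw [if_neg h]
        by_cases hnr : near (2 * m + 2) α.1 α'.1
        · rw [if_pos hnr]
          have g1 := hn₀ n (by omega) α α' h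
          have g3 := mul_nonneg (hP0 α) (hP0 α')
          linarith
        · rw [if_neg hnr, h5 pv pe n m α α' hnr]
          simp only [add_zero]
          exact le_rfl
    have hdouble : ∑ α : Vx n × (Fin m ↪ Fin n), ∑ α' : Vx n × (Fin m ↪ Fin n),
        Pr (rt pv pe n) (fun ω => EA ω α ∧ EA ω α') ≤
        μ ^ 2 + μ + (2 ^ n * n ^ m) * (2 * (n + 1) ^ (2 * m + 2) * n ^ m) * B := by
      have g1 : ∑ α : Vx n × (Fin m ↪ Fin n), ∑ α' : Vx n × (Fin m ↪ Fin n),
        Pr (rt pv pe n) (fun ω => EA ω α ∧ EA ω α') ≤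
          ∑ α : Vx n × (Fin m ↪ Fin n), ∑ α' : Vx n × (Fin m ↪ Fin n),
            (P α * P α' + (if α = α' then P α else 0) +
            (if near (2 * m + 2) α.1 α'.1 then B else 0)) :=
        Finset.sum_le_sum fun α _ => Finset.sum_le_sum fun α' _ => hpair α α'
      refine g1.trans ?_
      simp only [Finset.sum_add_distrib]
      have g2 : ∑ α, ∑ α', P α * P α' = μ ^ 2 := by
        rw [sq, hμ, Finset.sum_mul_sum]
      have g3 : ∑ α : Vx n × (Fin m ↪ Fin n), ∑ α', (if α = α' then P α else 0) = μ := by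
        rw [hμ]
        refine Finset.sum_congr rfl fun α _ => ?_
        rw [Finset.sum_ite_eq, if_pos (Finset.mem_univ α)]
      have g4 : ∑ α : Vx n × (Fin m ↪ Fin n), ∑ α' : Vx n × (Fin m ↪ Fin n),
          (if near (2 * m + 2) α.1 α'.1 then B else 0) ≤
          (2 ^ n * n ^ m) * (2 * (n + 1) ^ (2 * m + 2) * n ^ m) * B := by
        have g5 : ∀ α ∈ (univ : Finset (Vx n × (Fin m ↪ Fin n))),
            ∑ α' : Vx n × (Fin m ↪ Fin n), (if near (2 * m + 2) α.1 α'.1 then B else 0) ≤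
            (2 * (n + 1) ^ (2 * m + 2) * n ^ m) * B := by
          intro α _
          rw [← Finset.sum_filter, Finset.sum_const, nsmul_eq_mul]
          refine mul_le_mul_of_nonneg_right ?_ hB0
          have := near_count h3 n m α.1
          exact_mod_cast (by convert this)
        refine (Finset.sum_le_sum g5).trans ?_
        rw [Finset.sum_const, card_all, nsmul_eq_mul, mul_assoc (2 ^ n * (n : ℝ) ^ m)]
        refine mul_le_mul_of_nonneg_right ?_ (by positivity)
        push_cast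
        refine mul_le_mul_of_nonneg_left ?_ (by positivity)
        exact_mod_cast Nat.descFactorial_le_pow n m
      rw [g2, g3]
      linarith
    have hch := h2 (rt pv pe n) (rt_bd hpv hpv1 hpe hpe1 n)
      (univ : Finset (Vx n × (Fin m ↪ Fin n))) (fun α ω => EA ω α) hμ0
    have e0 : (fun ω : Om n => ∀ α ∈ (univ : Finset (Vx n × (Fin m ↪ Fin n))), ¬ EA ω α) =
        fun ω => ∀ α : Vx n × (Fin m ↪ Fin n), ¬ EA ω α := by
      funext ω
      simp
    rw [e0] at hch
    refine hch.trans ?_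
    set T : ℝ := (2 ^ n * n ^ m) * (2 * (n + 1) ^ (2 * m + 2) * n ^ m) * B with hT
    have hT0 : 0 ≤ T := by positivity
    have f1 : (∑ α : Vx n × (Fin m ↪ Fin n), ∑ α' : Vx n × (Fin m ↪ Fin n),
        Pr (rt pv pe n) (fun ω => EA ω α ∧ EA ω α')) / μ ^ 2 - 1 ≤
        1 / μ + T := by
      have f2 : (∑ α : Vx n × (Fin m ↪ Fin n), ∑ α' : Vx n × (Fin m ↪ Fin n),
        Pr (rt pv pe n) (fun ω => EA ω α ∧ EA ω α')) / μ ^ 2 ≤
          (μ ^ 2 + μ + T) / μ ^ 2 := by gcongr
      have f3 : (μ ^ 2 + μ + T) / μ ^ 2 = 1 + 1 / μ + T / μ ^ 2 := by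
        field_simp
      have f4 : T / μ ^ 2 ≤ T := div_le_self hT0 (one_le_pow₀ hμ1)
      linarith
    refine f1.trans (add_le_add ?_ ?_)
    · exact one_div_le_one_div_of_le (by positivity) hlow
    · have hn1 : (1 : ℝ) ≤ n := by exact_mod_cast (by omega : 1 ≤ n)
      have k1 : ((n : ℝ) + 1) ^ (2 * m + 2) ≤ (2 * n) ^ (2 * m + 2) :=
        pow_le_pow_left₀ (by positivity) (by linarith) _
      have k2 : ρ ^ ((m + 1) * n) * 2 ^ n = q ^ n := by
        rw [hq, mul_pow, ← pow_mul]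
        ring
      calc T = 2 * C * ((n : ℝ) ^ m * n ^ m * ((n : ℝ) + 1) ^ (2 * m + 2)) *
            (ρ ^ ((m + 1) * n) * 2 ^ n) := by rw [hT, hB]; ring
        _ ≤ 2 * C * ((n : ℝ) ^ m * n ^ m * (2 * n) ^ (2 * m + 2)) *
            (ρ ^ ((m + 1) * n) * 2 ^ n) := by gcongr
        _ = (2 * C * 2 ^ (2 * m + 2)) * ((n : ℝ) ^ (4 * m + 2) * q ^ n) := by
            rw [k2, mul_pow]
            ring
  have lim : Tendsto (fun n : ℕ => 1 / (c * ((n : ℝ) + 1 - m)) +
      (2 * C * 2 ^ (2 * m + 2)) * ((n : ℝ) ^ (4 * m + 2) * q ^ n)) atTop (𝓝 0) := by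
    have l1 : Tendsto (fun n : ℕ => (n : ℝ) ^ (4 * m + 2) * q ^ n) atTop (𝓝 0) :=
      tendsto_pow_const_mul_const_pow_of_lt_one _ hq0 hρ2
    have l2 : Tendsto (fun n : ℕ => 1 / (c * ((n : ℝ) + 1 - m))) atTop (𝓝 0) := by
      have l3 : Tendsto (fun n : ℕ => c * ((n : ℝ) + 1 - m)) atTop atTop := by
        refine Tendsto.const_mul_atTop hc0 ?_
        have : (fun n : ℕ => (n : ℝ) + 1 - m) = fun n : ℕ => (n : ℝ) + (1 - m) := by
          funext n; ring
        rw [this]
        exact tendsto_atTop_add_const_right _ _ tendsto_natCast_atTop_atTop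
      simp only [one_div]
      exact l3.inv_tendsto_atTop
    have l4 := l2.add (l1.const_mul (2 * C * 2 ^ (2 * m + 2)))
    simpa using l4
  refine squeeze_zero' ?_ key lim
  filter_upwards with n
  exact ((h1 (rt pv pe n) (rt_bd hpv hpv1 hpe hpe1 n)).2.2.1 _).1

end Pool.Agent.Q225.DC.X
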