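import Pool.Agent.Q157.DC.Stm

/-! Job DC-eafar of project DC (helper157): far pendant paths are independent. -/

set_option autoImplicit false

open Finset Filter Topology
open scoped symmDiff

namespace Pool.Agent.Q225.DC.F

open Pool.Agent.Q157.DC

theorem tri {n : ℕ} (a b c : Vx n) : (a ∆ c).card ≤ (a ∆ b).card + (b ∆ c).card := by
  refine (Finset.card_le_card (symmDiff_triangle a b c)).trans ?_
  exact Finset.card_union_le _ _

theorem card_compl {n : ℕ} (a b : Vx n) : (a ∆ bᶜ).card + (a ∆ b).card = n := by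
  have h : a ∆ bᶜ = (a ∆ b)ᶜ := by
    ext c
    simp only [Finset.mem_symmDiff, Finset.mem_compl]
    tauto
  rw [h, Finset.card_compl, Fintype.card_fin]
  have : (a ∆ b).card ≤ n := by
    have := Finset.card_le_univ (a ∆ b)
    rwa [Fintype.card_fin] at this
  omega

/-- the marks on which the event of the pendant path from `y` depends -/
def SS {n : ℕ} (m : ℕ) (y : Vx n) : Set (Ix n) :=
  {i | (∃ v, i = Sum.inl v ∧ ((y ∆ v).card ≤ m ∨ n ≤ (y ∆ v).card + m)) ∨
    ∃ a b, i = Sum.inr s(a, b) ∧ (y ∆ a).card ≤ m ∧ (y ∆ b).card ≤ m}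

theorem SS_disj {n m : ℕ} {y y' : Vx n} (h : ¬ near (2 * m + 2) y y') :
    Disjoint (SS m y) (SS m y') := by
  unfold near at h
  push Not at h
  obtain ⟨h1, h2⟩ := h
  have key : ∀ v : Vx n, (y ∆ v).card ≤ m → (y' ∆ v).card ≤ m → False := by
    intro v g1 g2
    have g3 := tri y v y'
    rw [symmDiff_comm v y'] at g3
    omega
  rw [Set.disjoint_left]
  rintro i (⟨v, rfl, hv⟩ | ⟨a, b, rfl, ha, hb⟩) (⟨v', e, hv'⟩ | ⟨a', b', e, ha', hb'⟩)
  · have e1 : v = v' := Sum.inl_injective e
    subst e1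
    rcases hv with g1 | g1 <;> rcases hv' with g2 | g2
    · exact key v g1 g2
    · have g3 := tri y' y v
      rw [symmDiff_comm y' y] at g3
      omega
    · have g3 := tri y y' v
      omega
    · have k1 := card_compl y v
      have k2 := card_compl y' v
      exact key vᶜ (by omega) (by omega)
  · exact absurd e (by simp)
  · exact absurd e (by simp)
  · have e1 : s(a, b) = s(a', b') := Sum.inr_injective e
    rcases Sym2.eq_iff.1 e1 with ⟨e2, -⟩ | ⟨e2, -⟩
    · exact key a ha (e2 ▸ ha')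
    · exact key a ha (e2 ▸ hb')

theorem EA_dep (h2 : S_ypt) {n m : ℕ} (α : Vx n × (Fin m ↪ Fin n)) :
    DepOn (SS m α.1) (fun ω : Om n => EA ω α) := by
  intro ω ω' hω
  obtain ⟨y0, yc, yi, -⟩ := h2 n m α.1 α.2
  have hd : ∀ l ≤ m, (α.1 ∆ ypt α.1 α.2 l).card = l := by
    intro l hl
    have := yc 0 l (Nat.zero_le _) hl
    rw [y0] at this
    simpa using this
  have hp : ∀ v, ((α.1 ∆ v).card ≤ m ∨ n ≤ (α.1 ∆ v).card + m) → (pres ω v ↔ pres ω' v) := by
    intro v hv
    have := hω (Sum.inl v) (Or.inl ⟨v, rfl, hv⟩)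
    unfold pres
    rw [this]
  have ho : ∀ a b, (α.1 ∆ a).card ≤ m → (α.1 ∆ b).card ≤ m → (opn ω a b ↔ opn ω' a b) := by
    intro a b ha hb
    have := hω (Sum.inr s(a, b)) (Or.inr ⟨a, b, rfl, ha, hb⟩)
    unfold opn
    rw [this]
  apply propext
  unfold EA
  refine and_congr ?_ (and_congr ?_ (and_congr ?_ ?_))
  · refine forall_congr' fun l => forall_congr' fun hl => hp _ (Or.inl ?_)
    rw [hd l hl]; exact hl
  · refine forall_congr' fun l => forall_congr' fun hl => ho _ _ ?_ ?_
    · rw [hd l hl.le]; exact hl.le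
    · rw [hd (l + 1) hl]; exact hl
  · refine forall_congr' fun l => forall_congr' fun hl => forall_congr' fun v =>
      forall_congr' fun hnb => forall_congr' fun _ => forall_congr' fun _ => not_congr ?_
    have hv : (α.1 ∆ v).card ≤ m := by
      have g1 := tri α.1 (ypt α.1 α.2 l) v
      rw [hd l hl.le] at g1
      unfold nb at hnb
      omega
    refine and_congr (hp v (Or.inl hv)) (ho _ _ ?_ hv)
    rw [hd l hl.le]; exact hl.le
  · refine hp _ (Or.inr ?_)
    have g1 := card_compl α.1 (ypt α.1 α.2 m)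
    rw [hd m le_rfl] at g1
    omega

theorem ea_far (h1 : S_pr_and) (h2 : S_ypt) : S_EA_far := by
  intro pv pe n m α α' hfar
  exact h1 (rt pv pe n) (SS m α.1) (SS m α'.1) (fun ω => EA ω α) (fun ω => EA ω α')
    (SS_disj hfar) (EA_dep h2 α) (EA_dep h2 α')

end Pool.Agent.Q225.DC.F
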