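import Pool.Agent.Q157.DC.Stm

/-! Job DC-eanear of project DC (helper157). -/

set_option autoImplicit false

open Finset Filter Topology
open scoped symmDiff

namespace Pool.Agent.Q225.DC

open Pool.Agent.Q157.DC

theorem rt_bd {pv pe : ℝ} (h1 : 0 < pv) (h2 : pv ≤ 1) (h3 : 0 < pe) (h4 : pe ≤ 1) (n : ℕ) :
    ∀ i, 0 ≤ rt pv pe n i ∧ rt pv pe n i ≤ 1 := by
  rintro (i | i)
  · exact ⟨h1.le, h2⟩
  · exact ⟨h3.le, h4⟩

theorem pr_zero {ι : Type} [Fintype ι] [DecidableEq ι] (r : ι → ℝ) (A : (ι → Bool) → Prop)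
    (h : ∀ ω, ¬ A ω) : Pr r A = 0 := by
  unfold Pr
  exact Finset.sum_eq_zero fun ω _ => if_neg (h ω)

theorem ea_near (h1 : S_basic) (h2 : S_ypt) (h3 : S_EA_same) (h4 : S_EA_poor) : S_EA_near := by
  classical
  intro pv pe δ ρ C m hpv hpv1 hpe hpe1 hδ hρ hC hm hPB
  obtain ⟨n₀, hn₀⟩ := exists_nat_gt (2 / δ)
  refine ⟨n₀, fun n hn α α' hne => ?_⟩
  have hδn : 2 < δ * n := by
    have h5 : 2 / δ < n := hn₀.trans_le (by exact_mod_cast hn)
    rw [div_lt_iff₀ hδ] at h5
    linarith
  have hb := h1 (rt pv pe n) (rt_bd hpv hpv1 hpe hpe1 n)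
  obtain ⟨-, -, -, hmono, -, -, -, -⟩ := hb
  set P : Finset (Vx n) := (range m).image (fun l => ypt α.1 α.2 l) with hP
  set P' : Finset (Vx n) := (range m).image (fun l => ypt α'.1 α'.2 l) with hP'
  have cP : P.card = m := by
    rw [hP, Finset.card_image_of_injOn, Finset.card_range]
    intro l hl l' hl' h
    rw [Finset.coe_range, Set.mem_Iio] at hl hl'
    exact (h2 n m α.1 α.2).2.2.1 l l' hl.le hl'.le h
  have cP' : P'.card = m := by
    rw [hP', Finset.card_image_of_injOn, Finset.card_range]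
    intro l hl l' hl' h
    rw [Finset.coe_range, Set.mem_Iio] at hl hl'
    exact (h2 n m α'.1 α'.2).2.2.1 l l' hl.le hl'.le h
  by_cases hPP : P = P'
  · have : ∀ ω : Om n, ¬ (EA ω α ∧ EA ω α') := by
      rintro ω ⟨g1, g2⟩
      apply hne
      refine h3 n m hm ω α α' g1 g2 ?_ ?_
      · intro l hl
        have : ypt α.1 α.2 l ∈ P' := by
          rw [← hPP, hP]
          exact Finset.mem_image.2 ⟨l, Finset.mem_range.2 hl, rfl⟩
        rw [hP'] at this
        obtain ⟨l', hl', e⟩ := Finset.mem_image.1 this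
        exact ⟨l', Finset.mem_range.1 hl', e.symm⟩
      · intro l hl
        have : ypt α'.1 α'.2 l ∈ P := by
          rw [hPP, hP']
          exact Finset.mem_image.2 ⟨l, Finset.mem_range.2 hl, rfl⟩
        rw [hP] at this
        obtain ⟨l', hl', e⟩ := Finset.mem_image.1 this
        exact ⟨l', Finset.mem_range.1 hl', e.symm⟩
    rw [pr_zero _ _ this]
    positivity
  · have hcard : m + 1 ≤ (P ∪ P').card := by
      by_contra hlt
      push Not at hlt
      have h5 : (P ∪ P').card ≤ m := by omega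
      have h6 : P = P ∪ P' := Finset.eq_of_subset_of_card_le Finset.subset_union_left
        (by rw [cP]; exact h5)
      have h7 : P' = P ∪ P' := Finset.eq_of_subset_of_card_le Finset.subset_union_right
        (by rw [cP']; exact h5)
      exact hPP (h6.trans h7.symm)
    obtain ⟨S, hS, hSc⟩ := Finset.exists_subset_card_eq hcard
    refine (hmono _ (fun ω => ∀ v ∈ S, poor δ ω v) ?_).trans (hPB n S hSc)
    rintro ω ⟨g1, g2⟩ v hv
    have hk : (op ω v).card ≤ 2 := by
      rcases Finset.mem_union.1 (hS hv) with h | h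
      · obtain ⟨l, hl, rfl⟩ := Finset.mem_image.1 h
        exact h4 n m ω α g1 l (Finset.mem_range.1 hl)
      · obtain ⟨l, hl, rfl⟩ := Finset.mem_image.1 h
        exact h4 n m ω α' g2 l (Finset.mem_range.1 hl)
    unfold poor
    have : ((op ω v).card : ℝ) ≤ 2 := by exact_mod_cast hk
    linarith

end Pool.Agent.Q225.DC
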