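import Pool.Agent.Q157.DC.Stm

/-! Job DC-good of project DC (helper157). -/

set_option autoImplicit false

open Finset Filter Topology
open scoped symmDiff

namespace Pool.Agent.Q225.DC.G

open Pool.Agent.Q157.DC

theorem rt_bd {pv pe : ℝ} (h1 : 0 < pv) (h2 : pv ≤ 1) (h3 : 0 < pe) (h4 : pe ≤ 1) (n : ℕ) :
    ∀ i, 0 ≤ rt pv pe n i ∧ rt pv pe n i ≤ 1 := by
  rintro (i | i)
  · exact ⟨h1.le, h2⟩
  · exact ⟨h3.le, h4⟩

theorem good (h1 : S_basic) (h2 : S_geo) (h3 : S_att) (h4 : S_disj) (h5 : S_iv) (h6 : S_case1)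
    (h7 : S_case2) : S_good := by
  intro pv pe hpv hpv1 hpe hpe1 δ η m hδ hδ1 hη
  obtain ⟨J, hJ⟩ : ∃ J : ℕ, (1 - pv ^ 2) ^ J < η / 2 :=
    exists_pow_lt_of_lt_one (half_pos hη) (by nlinarith)
  set ε : ℝ := η / (6 * (J + 1)) with hε
  have hε0 : 0 < ε := by positivity
  have h3J : 3 * (J : ℝ) * ε ≤ η / 2 := by
    rw [hε, ← mul_div_assoc, div_le_iff₀ (by positivity)]
    nlinarith
  obtain ⟨k₀, hk₀, hgeo⟩ := h2 pv pe hpv hpv1 hpe hpe1 ε hε0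
  obtain ⟨n1, hn1⟩ := h6 δ m J k₀ hδ hδ1
  obtain ⟨n2, hn2⟩ := h7 δ m J k₀ hδ hδ1
  refine ⟨max n1 n2, fun n hn x y I I' hA => ?_⟩
  obtain ⟨α, β, hab⟩ : ∃ α β : Fin J → Vx n,
      ∀ a ∈ I, ∀ b ∈ I',
        Function.Injective (fun j => bn I I' (x ∆ {a}) (y ∆ {b}) (α j)) ∧
        Function.Injective (fun j => bn I I' (x ∆ {a}) (y ∆ {b}) (β j)) ∧
        (∀ j j', bn I I' (x ∆ {a}) (y ∆ {b}) (α j) ≠ bn I I' (x ∆ {a}) (y ∆ {b}) (β j')) ∧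
        ∀ j, k₀ ≤ ((x ∆ {a}) ∆ bn I I' (x ∆ {a}) (y ∆ {b}) (α j)).card ∧
          k₀ ≤ (bn I I' (x ∆ {a}) (y ∆ {b}) (α j) ∆ bn I I' (x ∆ {a}) (y ∆ {b}) (β j)).card ∧
          k₀ ≤ (bn I I' (x ∆ {a}) (y ∆ {b}) (β j) ∆ (y ∆ {b})).card ∧
          ((x ∆ {a}) ∆ bn I I' (x ∆ {a}) (y ∆ {b}) (α j)).card +
            (bn I I' (x ∆ {a}) (y ∆ {b}) (α j) ∆ bn I I' (x ∆ {a}) (y ∆ {b}) (β j)).card +
            (bn I I' (x ∆ {a}) (y ∆ {b}) (β j) ∆ (y ∆ {b})).card + 2 ≤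
          max (x ∆ y).card (n - 2 * m) := by
    rcases le_or_gt ((1 - δ / 2) * (n : ℝ)) ((x ∆ y).card : ℝ) with h | h
    · exact hn1 n (le_trans (le_max_left _ _) hn) x y I I' hA h
    · exact hn2 n (le_trans (le_max_right _ _) hn) x y I I' hA h
  obtain ⟨cI, cI', hII, hcase⟩ := hA
  have hxy : I' ⊆ x ∆ y ∨ Disjoint I' (x ∆ y) := by
    rcases hcase with h | h
    · exact Or.inl h.2.2
    · exact h.2
  set M : ℕ := ⌊δ * n / 16⌋₊ with hM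
  set a : Fin M → Fin n := fun t => I.orderEmbOfFin cI t with ha
  set b : Fin M → Fin n := fun t => I'.orderEmbOfFin cI' t with hb
  have ha1 : ∀ t, a t ∈ I := fun t => Finset.orderEmbOfFin_mem I cI t
  have hb1 : ∀ t, b t ∈ I' := fun t => Finset.orderEmbOfFin_mem I' cI' t
  have ha2 : ∀ t t', t ≠ t' → a t ≠ a t' := fun t t' h h' =>
    h ((I.orderEmbOfFin cI).injective h')
  have hb2 : ∀ t t', t ≠ t' → b t ≠ b t' := fun t t' h h' =>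
    h ((I'.orderEmbOfFin cI').injective h')
  have hatt := h3 pv pe hpv hpv1 hpe hpe1 n M J ε (fun t => x ∆ {a t}) (fun t => y ∆ {b t})
    (fun t j => bn I I' (x ∆ {a t}) (y ∆ {b t}) (α j))
    (fun t j => bn I I' (x ∆ {a t}) (y ∆ {b t}) (β j))
    (fun t => Ureg I I' (x ∆ {a t}) (y ∆ {b t})) hε0.le
    (fun t t' htt => h4 n x y I I' hII hxy (a t) (ha1 t) (a t') (ha1 t') (b t) (hb1 t) (b t')
      (hb1 t') (ha2 t t' htt) (hb2 t t' htt))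
    (fun t j => h5 n I I' (x ∆ {a t}) (y ∆ {b t}) (α j) (β j) hII)
    (fun t => (hab (a t) (ha1 t) (b t) (hb1 t)).1)
    (fun t => (hab (a t) (ha1 t) (b t) (hb1 t)).2.1)
    (fun t j j' => (hab (a t) (ha1 t) (b t) (hb1 t)).2.2.1 j j')
    (fun t j => by
      obtain ⟨g1, g2, g3, -⟩ := (hab (a t) (ha1 t) (b t) (hb1 t)).2.2.2 j
      exact ⟨hgeo n _ _ g1, hgeo n _ _ g2, hgeo n _ _ g3⟩)
  obtain ⟨-, -, -, hmono, -, -, -, -⟩ := h1 (rt pv pe n) (rt_bd hpv hpv1 hpe hpe1 n)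
  refine (hmono _ _ ?_).trans (hatt.trans (pow_le_pow_left₀ ?_ ?_ M))
  · intro ω hω t j htry
    obtain ⟨-, -, -, g4⟩ := (hab (a t) (ha1 t) (b t) (hb1 t)).2.2.2 j
    exact hω ⟨a t, ha1 t, b t, hb1 t, _, _, htry, g4⟩
  · have : 0 ≤ 1 - pv ^ 2 := by nlinarith
    positivity
  · linarith

end Pool.Agent.Q225.DC.G
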